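import Pool.Agent.K7.H32.ME.Stmt

set_option autoImplicit false

/-!
# MP_028459_al: generators of the invariant differential operators on the Minkowski-Euclid space

Full positive answer to Q1: for all `n, m ≥ 1` the operators `D_j` (`1 ≤ j ≤ n`) and `Ω^{(k)}_{pq}`
(`0 ≤ k ≤ n - 1`, `1 ≤ p ≤ q ≤ m`) generate the algebra `𝔻(P_{n,m})` of the differential operators
on `P_{n,m} = P_n × ℝ^{(m,n)}` which commute with all maps `(Y, V) ↦ (A Y ᵗA, (V + a) ᵗA)`.

The definitions (`Pool/Agent/K7/H32/ME/Defs.lean`, `Stmt.lean`):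
* `Idx n m` is the set of the coordinates `y_{ij} = y_{ji}`, `v_{kl}`; `Pnm n m` is the set of the
  coordinate vectors with positive definite `Y`;
* `SF n m` is the `ℂ`-algebra of the smooth functions `P_{n,m} → ℂ` with the pointwise operations,
  `pdS i` is the partial derivative with respect to the coordinate `i`, `mulS a` is the
  multiplication by `a`;
* `DiffS n m` is the algebra generated by all `mulS a` and `pdS i`; part (1) says that its elements
  are the finite sums `∑ a_α ∂^α` with smooth `a_α` (`dS α = ∂^α`);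
* `pullS A a f = f ∘ (A, a)`, and `InvS n m = 𝔻(P_{n,m})` is the set of the `T` in `DiffS n m`
  which commute with all `pullS A a`;
* `DS n m j = D_j`, `OS n m k p q = Ω^{(k)}_{pq}`, and `gensS n m` is the set of the `D_j`
  (`1 ≤ j ≤ n`) and `Ω^{(k)}_{pq}` (`k < n`, `p ≤ q`).
-/

open Pool.Agent.K7.H32.ME in
/-- (1) `DiffS n m` consists of the finite sums `∑ a_α ∂^α` with smooth coefficients;
(2) for all `n, m ≥ 1` the algebra of the invariant differential operators on `P_{n,m}` is generated
by the operators `D_j` and `Ω^{(k)}_{pq}`. -/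
theorem Pool.Agent.Results.MP_028459_al.Generators.result :
    (∀ (n m : ℕ) (T : Module.End ℂ (SF n m)), T ∈ DiffS n m ↔
      ∃ (s : Finset (Idx n m →₀ ℕ)) (a : (Idx n m →₀ ℕ) → SF n m),
        T = ∑ α ∈ s, mulS (a α) * dS α) ∧
    ∀ n m : ℕ, 0 < n → 0 < m →
      (Algebra.adjoin ℂ (gensS n m) : Set (Module.End ℂ (SF n m))) = InvS n m :=
  ⟨fun _ _ T => diffS T, fun _ _ hn _ => mainS hn⟩
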